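import Pool.Agent.Helper97_WHT.Stmt

/-!
# Squad WHT, row LOWA: a cusp form with a large Whittaker coefficient
-/

set_option autoImplicit false

open scoped BigOperators

namespace Pool.Agent.WHT.H2

open Pool.Agent.DEN Pool.Agent.TMP

/-! ## Translates of invariant functions -/

section
variable {G X : Type} [Group G] [MulAction G X] {Λ : Subgroup G}

theorem card_stab_smul {δ : G} (h1 : ∀ γ ∈ Λ, δ * γ * δ⁻¹ ∈ Λ) (h2 : ∀ γ ∈ Λ, δ⁻¹ * γ * δ ∈ Λ)
    (x : X) : Nat.card (MulAction.stabilizer Λ (δ • x)) = Nat.card (MulAction.stabilizer Λ x) := by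
  refine Nat.card_congr ⟨fun s => ⟨⟨δ⁻¹ * s.1.1 * δ, h2 _ s.1.2⟩, ?_⟩,
    fun s => ⟨⟨δ * s.1.1 * δ⁻¹, h1 _ s.1.2⟩, ?_⟩, ?_, ?_⟩
  · rw [MulAction.mem_stabilizer_iff]
    show (δ⁻¹ * s.1.1 * δ) • x = x
    have h3 : s.1.1 • (δ • x) = δ • x := s.2
    rw [mul_smul, mul_smul, h3, inv_smul_smul]
  · rw [MulAction.mem_stabilizer_iff]
    show (δ * s.1.1 * δ⁻¹) • (δ • x) = δ • x
    have h3 : s.1.1 • x = x := s.2
    rw [mul_smul, mul_smul, inv_smul_smul, h3]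
  · intro s
    apply Subtype.ext
    apply Subtype.ext
    show δ * (δ⁻¹ * s.1.1 * δ) * δ⁻¹ = s.1.1
    group
  · intro s
    apply Subtype.ext
    apply Subtype.ext
    show δ⁻¹ * (δ * s.1.1 * δ⁻¹) * δ = s.1.1
    group

/-- The translation of the orbits. -/
def qmap (δ : G) (h1 : ∀ γ ∈ Λ, δ * γ * δ⁻¹ ∈ Λ) :
    MulAction.orbitRel.Quotient Λ X → MulAction.orbitRel.Quotient Λ X :=
  Quotient.map (fun x => δ • x) (by
    intro x y hxy
    have h3 : (MulAction.orbitRel Λ X) x y := hxy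
    rw [MulAction.orbitRel_apply] at h3
    obtain ⟨γ, hγ⟩ := h3
    have h4 : γ.1 • y = x := hγ
    show (MulAction.orbitRel Λ X) (δ • x) (δ • y)
    rw [MulAction.orbitRel_apply]
    refine ⟨⟨δ * γ.1 * δ⁻¹, h1 _ γ.2⟩, ?_⟩
    show (δ * γ.1 * δ⁻¹) • (δ • y) = δ • x
    rw [mul_smul, mul_smul, inv_smul_smul, h4])

theorem card_stab_out (x : X) :
    Nat.card (MulAction.stabilizer Λ (Quotient.mk (MulAction.orbitRel Λ X) x).out) =
      Nat.card (MulAction.stabilizer Λ x) := by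
  have h1 : (MulAction.orbitRel Λ X) (Quotient.mk (MulAction.orbitRel Λ X) x).out x :=
    Quotient.exact (Quotient.out_eq _)
  rw [MulAction.orbitRel_apply] at h1
  obtain ⟨γ, hγ⟩ := h1
  have h2 : γ.1 • x = (Quotient.mk (MulAction.orbitRel Λ X) x).out := hγ
  rw [← h2]
  exact card_stab_smul (fun γ' h' => mul_mem (mul_mem γ.2 h') (inv_mem γ.2))
    (fun γ' h' => mul_mem (mul_mem (inv_mem γ.2) h') γ.2) x

theorem nsq_shift {δ : G} (h1 : ∀ γ ∈ Λ, δ * γ * δ⁻¹ ∈ Λ) (h2 : ∀ γ ∈ Λ, δ⁻¹ * γ * δ ∈ Λ)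
    {F : X → ℂ} (hF : H6.PV Λ F) :
    H6.PV Λ (fun x => F (δ • x)) ∧ H6.nsq Λ (fun x => F (δ • x)) = H6.nsq Λ F := by
  have h1' : ∀ γ ∈ Λ, δ⁻¹ * γ * δ⁻¹⁻¹ ∈ Λ := fun γ h => by rw [inv_inv]; exact h2 γ h
  let e : MulAction.orbitRel.Quotient Λ X ≃ MulAction.orbitRel.Quotient Λ X :=
    ⟨qmap δ h1, qmap δ⁻¹ h1', by
      intro o
      induction o using Quotient.inductionOn with
      | h x =>
        show Quotient.mk _ (δ⁻¹ • (δ • x)) = Quotient.mk _ x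
        rw [inv_smul_smul], by
      intro o
      induction o using Quotient.inductionOn with
      | h x =>
        show Quotient.mk _ (δ • (δ⁻¹ • x)) = Quotient.mk _ x
        rw [smul_inv_smul]⟩
  have he : ∀ o : MulAction.orbitRel.Quotient Λ X,
      e o = Quotient.mk (MulAction.orbitRel Λ X) (δ • o.out) := by
    intro o
    conv_lhs => rw [← Quotient.out_eq o]
    rfl
  have hval : ∀ o, F (e o).out = F (δ • o.out) := fun o => by rw [he o, H6.inv_out hF.1]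
  refine ⟨⟨?_, ?_⟩, ?_⟩
  · intro γ hγ x
    show F (δ • γ • x) = F (δ • x)
    rw [smul_smul, show δ * γ = (δ * γ * δ⁻¹) * δ by group, mul_smul]
    exact hF.1 _ (h1 γ hγ) _
  · refine (hF.2.preimage (f := e) e.injective.injOn).subset ?_
    intro o ho
    show F (e o).out ≠ 0
    rw [hval]
    exact ho
  · unfold H6.nsq
    refine Eq.trans ?_ (finsum_comp_equiv e
      (f := fun o => ‖F o.out‖ ^ 2 / (Nat.card (MulAction.stabilizer Λ o.out) : ℝ)))
    refine finsum_congr fun o => ?_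
    show ‖F (δ • o.out)‖ ^ 2 / (Nat.card (MulAction.stabilizer Λ o.out) : ℝ) =
      ‖F (e o).out‖ ^ 2 / (Nat.card (MulAction.stabilizer Λ (e o).out) : ℝ)
    rw [hval, he o, card_stab_out, card_stab_smul h1 h2]

/-- The squared norm of a function dominated by translates. -/
theorem nsq_le_sum {I : Type} [Fintype I] {f : X → ℂ} {F : I → X → ℂ} (hf : H6.PV Λ f)
    (hF : ∀ i, H6.PV Λ (F i)) (hle : ∀ x, ‖f x‖ ^ 2 ≤ ∑ i, ‖F i x‖ ^ 2) :
    H6.nsq Λ f ≤ ∑ i, H6.nsq Λ (F i) := by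
  classical
  set D : Finset (MulAction.orbitRel.Quotient Λ X) :=
    hf.2.toFinset ∪ Finset.univ.biUnion fun i => (hF i).2.toFinset with hD
  have hDf : ∀ o, f o.out ≠ 0 → o ∈ D := fun o ho =>
    Finset.mem_union_left _ (by rw [Set.Finite.mem_toFinset]; exact ho)
  have hDF : ∀ i o, F i o.out ≠ 0 → o ∈ D := fun i o ho =>
    Finset.mem_union_right _ (by
      rw [Finset.mem_biUnion]
      exact ⟨i, Finset.mem_univ _, by rw [Set.Finite.mem_toFinset]; exact ho⟩)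
  rw [H6.nsq_eq D hDf, Finset.sum_congr rfl fun i _ => H6.nsq_eq D (hDF i), Finset.sum_comm]
  refine Finset.sum_le_sum fun o _ => ?_
  rw [← Finset.sum_div]
  exact div_le_div_of_nonneg_right (hle _) (Nat.cast_nonneg _)

end

/-! ## The row -/

theorem lowa (hChrp : ChrpStmt) (hSie : SieStmt) (hUnf : UnfStmt) (hChx : ChxStmt) :
    LowaStmt := by
  classical
  intro r C hC K _ _ P M hP hM hPM e he m hm hdeg
  have hP0 : P ≠ 0 := hP.ne_zero
  set N : Polynomial K := M * P ^ 2 with hN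
  have hN0 : N ≠ 0 := mul_ne_zero hM (pow_ne_zero 2 hP0)
  have hPd : 0 < P.natDegree := by
    rw [Nat.pos_iff_ne_zero]
    intro h0
    exact hP.not_isUnit (Polynomial.isUnit_iff_degree_eq_zero.mpr
      (by rw [Polynomial.degree_eq_natDegree hP0, h0]; rfl))
  have hMd : 0 < M.natDegree := by
    have h1 := Polynomial.natDegree_le_of_dvd hPM hM
    rw [Polynomial.natDegree_pow] at h1
    omega
  have hNd : 0 < N.natDegree := by
    rw [hN, Polynomial.natDegree_mul hM (pow_ne_zero 2 hP0)]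
    omega
  set χ : grp C K → ℂ := chi hC e N (fun _ => P) with hχd
  have hχ : IsChi N χ := (hChx r C hC K e N hN0 (fun _ => P)).1
  have hG : Good hC χ m := (hChx r C hC K e N hN0 (fun _ => P)).2.2.2 m hm hdeg
  obtain ⟨ψ, hψ1, hψ2, hψ3, hψ4, hψ5⟩ := hChrp r C hC K P M hP hM hPM e he
  obtain ⟨-, -, hS⟩ := hSie r C hC K
  -- the values
  have hval : ∀ γ ∈ cong C K 1 M, ∀ γ' ∈ cong C K 1 M, ∀ u ∈ Ug C K, ∀ u' ∈ Ug C K,
      γ • u • tp hC K m = γ' • u' • tp hC K m → ψ γ * χ u = ψ γ' * χ u' := by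
    intro γ hγ γ' hγ' u hu u' hu' h
    have hδ : γ'⁻¹ * γ ∈ cong C K 1 M := mul_mem (inv_mem hγ') hγ
    have h1 : (γ'⁻¹ * γ) • (u • tp hC K m) = u' • tp hC K m := by
      rw [mul_smul, h, inv_smul_smul]
    have h2 : γ'⁻¹ * γ ∈ Ug C K := (hS M hMd _ hδ m m hm hm u hu u' hu' h1).1
    have h3 : ψ (γ'⁻¹ * γ) = χ (γ'⁻¹ * γ) := hψ5 _ h2 hδ
    have h4 : χ (u'⁻¹ * ((γ'⁻¹ * γ) * u)) = 1 := by
      refine hG.2 _ (mul_mem (inv_mem hu') (mul_mem h2 hu)) ?_
      rw [mul_smul, mul_smul, h1, inv_smul_smul]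
    have h5 : χ ((γ'⁻¹ * γ) * u) = χ u' := by
      have h6 := hχ.mul u' hu' (u'⁻¹ * ((γ'⁻¹ * γ) * u))
        (mul_mem (inv_mem hu') (mul_mem h2 hu))
      rw [mul_inv_cancel_left, h4, mul_one] at h6
      exact h6
    have h7 : ψ γ = ψ γ' * ψ (γ'⁻¹ * γ) := by
      rw [← hψ1 γ' hγ' _ hδ, mul_inv_cancel_left]
    rw [h7, ← h5, hχ.mul _ h2 u hu, h3, mul_assoc]
  -- the form
  let f : XX C K → ℂ := fun x =>
    if h : ∃ p : grp C K × grp C K, p.1 ∈ cong C K 1 M ∧ p.2 ∈ Ug C K ∧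
      x = p.1 • p.2 • tp hC K m then ψ h.choose.1 * χ h.choose.2 else 0
  have hf1 : ∀ γ ∈ cong C K 1 M, ∀ u ∈ Ug C K, f (γ • u • tp hC K m) = ψ γ * χ u := by
    intro γ hγ u hu
    have h : ∃ p : grp C K × grp C K, p.1 ∈ cong C K 1 M ∧ p.2 ∈ Ug C K ∧
      γ • u • tp hC K m = p.1 • p.2 • tp hC K m := ⟨(γ, u), hγ, hu, rfl⟩
    show (if h : ∃ p : grp C K × grp C K, p.1 ∈ cong C K 1 M ∧ p.2 ∈ Ug C K ∧
      γ • u • tp hC K m = p.1 • p.2 • tp hC K m then ψ h.choose.1 * χ h.choose.2 else 0) = _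
    rw [dif_pos h]
    exact (hval γ hγ _ h.choose_spec.1 u hu _ h.choose_spec.2.1 h.choose_spec.2.2).symm
  have hf0 : ∀ x, f x ≠ 0 → ∃ γ ∈ cong C K 1 M, ∃ u ∈ Ug C K, x = γ • u • tp hC K m := by
    intro x hx
    by_contra hcon
    apply hx
    show (if h : ∃ p : grp C K × grp C K, p.1 ∈ cong C K 1 M ∧ p.2 ∈ Ug C K ∧
      x = p.1 • p.2 • tp hC K m then ψ h.choose.1 * χ h.choose.2 else 0) = 0
    refine dif_neg ?_
    rintro ⟨p, h1, h2, h3⟩
    exact hcon ⟨p.1, h1, p.2, h2, h3⟩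
  have hfeq : ∀ γ ∈ cong C K 1 M, ∀ x, f (γ • x) = ψ γ * f x := by
    intro γ hγ x
    by_cases hx : ∃ γ' ∈ cong C K 1 M, ∃ u ∈ Ug C K, x = γ' • u • tp hC K m
    · obtain ⟨γ', hγ', u, hu, rfl⟩ := hx
      rw [hf1 γ' hγ' u hu, smul_smul, hf1 _ (mul_mem hγ hγ') u hu, hψ1 γ hγ γ' hγ', mul_assoc]
    · have h1 : f x = 0 := by
        by_contra hne
        exact hx (hf0 x hne)
      have h2 : f (γ • x) = 0 := by
        by_contra hne
        obtain ⟨γ', hγ', u, hu, h3⟩ := hf0 _ hne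
        exact hx ⟨γ⁻¹ * γ', mul_mem (inv_mem hγ) hγ', u, hu, by
          rw [mul_smul, ← h3, inv_smul_smul]⟩
      rw [h1, h2, mul_zero]
  have hcusp : IsCusp N f := H222.hCsp r C hC K M N hM hN0 ψ hψ1 hψ3 hψ4 f hfeq
  have hψone : ψ 1 = 1 := by
    have h1 := hψ1 1 (one_mem _) 1 (one_mem _)
    rw [mul_one] at h1
    have h2 : ψ 1 ≠ 0 := by
      intro h0
      have := hψ2 1 (one_mem _)
      rw [h0, norm_zero] at this
      exact zero_ne_one this
    exact (mul_left_cancel₀ h2 (by rw [mul_one]; exact h1)).symm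
  obtain ⟨-, Q, hQPV, hQval, hQpet, hwh⟩ := hUnf r C hC K N hNd χ hχ m hG
  have hfU : ∀ u ∈ Ug C K, f (u • tp hC K m) = 1 * χ u := by
    intro u hu
    have h1 := hf1 1 (one_mem _) u hu
    rw [one_smul, hψone] at h1
    exact h1
  refine ⟨f, hcusp, ?_, ?_⟩
  · rw [hwh f 1 hfU, one_mul]
  -- the squared norm of the Poincare series
  have hQnsq : H6.nsq (cong C K 1 N) Q = vol hC N m := by
    have h1 := H6.pet_self hQPV
    rw [hQpet Q hQPV.1, hwh Q 1 (fun u hu => by rw [hQval m hm u hu, if_pos rfl, one_mul]),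
      one_mul] at h1
    exact_mod_cast h1.symm
  have hNM : cong C K 1 N ≤ cong C K 1 M := fun g hg => (hψ3 g hg).1
  have hnrm := (H22.hNrm r C hC K 1 N one_ne_zero hN0 isCoprime_one_left).1
  have hMar : cong C K 1 M ≤ arith C K 1 := fun g hg => hg.1
  have hidx0 : (cong C K 1 N).relIndex (cong C K 1 M) ≠ 0 := by
    intro h0
    have h1 := Subgroup.relIndex_mul_relIndex (cong C K 1 N) (cong C K 1 M) (arith C K 1)
      hNM hMar
    rw [h0, zero_mul] at h1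
    exact (H22.hFin r C hC K).2.2 N hN0 h1.symm
  have hfq : Finite (cong C K 1 M ⧸ (cong C K 1 N).subgroupOf (cong C K 1 M)) :=
    Nat.finite_of_card_ne_zero hidx0
  have := Fintype.ofFinite (cong C K 1 M ⧸ (cong C K 1 N).subgroupOf (cong C K 1 M))
  let F : (cong C K 1 M ⧸ (cong C K 1 N).subgroupOf (cong C K 1 M)) → XX C K → ℂ :=
    fun q x => Q ((q.out.1)⁻¹ • x)
  have hsh : ∀ q : (cong C K 1 M ⧸ (cong C K 1 N).subgroupOf (cong C K 1 M)),
      H6.PV (cong C K 1 N) (F q) ∧ H6.nsq (cong C K 1 N) (F q) = vol hC N m := by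
    intro q
    have hq : (q.out.1)⁻¹ ∈ arith C K 1 := inv_mem (hMar q.out.2)
    have h1 := nsq_shift (Λ := cong C K 1 N) (δ := (q.out.1)⁻¹) (hnrm _ hq)
      (fun γ hγ => by
        have h2 := hnrm _ (inv_mem hq) γ hγ
        rwa [inv_inv] at h2 ⊢) hQPV
    exact ⟨h1.1, h1.2.trans hQnsq⟩
  have hfPV : H6.PV (cong C K 1 N) f := by
    refine ⟨hcusp.1, ?_⟩
    exact H22.hFsp r C hC K N hN0 f hcusp
  have hle : ∀ x, ‖f x‖ ^ 2 ≤ ∑ q, ‖F q x‖ ^ 2 := by
    intro x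
    by_cases hx : f x = 0
    · rw [hx, norm_zero]
      have : (0 : ℝ) ≤ ∑ q, ‖F q x‖ ^ 2 := Finset.sum_nonneg fun _ _ => by positivity
      simpa using this
    · obtain ⟨γ, hγ, u, hu, rfl⟩ := hf0 x hx
      rw [hf1 γ hγ u hu, norm_mul, hψ2 γ hγ, hχ.norm_one u hu, mul_one, one_pow]
      set q : (cong C K 1 M ⧸ (cong C K 1 N).subgroupOf (cong C K 1 M)) :=
        QuotientGroup.mk (⟨γ, hγ⟩ : cong C K 1 M) with hq
      have h1 : (QuotientGroup.mk q.out : (cong C K 1 M ⧸ (cong C K 1 N).subgroupOf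
          (cong C K 1 M))) = QuotientGroup.mk (⟨γ, hγ⟩ : cong C K 1 M) := by
        rw [QuotientGroup.out_eq', hq]
      rw [QuotientGroup.eq, Subgroup.mem_subgroupOf] at h1
      have h2 : (q.out.1)⁻¹ * γ ∈ cong C K 1 N := h1
      have h3 : F q (γ • u • tp hC K m) = χ u := by
        show Q ((q.out.1)⁻¹ • γ • u • tp hC K m) = χ u
        rw [smul_smul, hQPV.1 _ h2, hQval m hm u hu, if_pos rfl]
      have h4 : ‖F q (γ • u • tp hC K m)‖ ^ 2 ≤ ∑ q, ‖F q (γ • u • tp hC K m)‖ ^ 2 :=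
        Finset.single_le_sum (f := fun q => ‖F q (γ • u • tp hC K m)‖ ^ 2)
          (fun _ _ => by positivity) (Finset.mem_univ q)
      rw [h3, hχ.norm_one u hu, one_pow] at h4
      exact h4
  have hmain := nsq_le_sum hfPV (fun q => (hsh q).1) hle
  rw [Finset.sum_congr rfl fun q _ => (hsh q).2, Finset.sum_const, Finset.card_univ,
    nsmul_eq_mul] at hmain
  refine hmain.trans ?_
  have hvol : 0 ≤ vol hC N m := by rw [← hQnsq]; exact H6.nsq_nonneg _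
  refine mul_le_mul_of_nonneg_right ?_ hvol
  have hcard : (Fintype.card (cong C K 1 M ⧸ (cong C K 1 N).subgroupOf (cong C K 1 M)) : ℝ) =
      ((cong C K 1 N).relIndex (cong C K 1 M) : ℝ) := by
    rw [← Nat.card_eq_fintype_card]
    rfl
  rw [hcard]
  exact_mod_cast (H222.hIdx r C hC K).1 P M hP0 hM hPM

end Pool.Agent.WHT.H2
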