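import Pool.Agent.Helper97_WHT.Stmt
import Mathlib.Analysis.Fourier.FiniteAbelian.PontryaginDuality

/-!
# Squad WHT, row PAR: Parseval for the Satake transform, and powers of a kernel
-/

set_option autoImplicit false

open scoped BigOperators

namespace Pool.Agent.WHT.H2

open Pool.Agent.DEN Pool.Agent.TMP

/-! ## Finite sums over abelian groups -/

theorem conv_char {Q : Type} [AddCommGroup Q] (a b : Q → ℂ) (ha : {l | a l ≠ 0}.Finite)
    (hb : {l | b l ≠ 0}.Finite) (s : Q → ℂ) (hs : ∀ l m, s (l + m) = s l * s m) :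
    ∑ᶠ l, (∑ᶠ m, a m * b (l - m)) * s l = (∑ᶠ m, a m * s m) * ∑ᶠ m, b m * s m := by
  classical
  have e1 : ∀ l, (∑ᶠ m, a m * b (l - m)) = ∑ m ∈ ha.toFinset, a m * b (l - m) := by
    intro l
    refine finsum_eq_sum_of_support_subset _ ?_
    intro m hm
    rw [Function.mem_support] at hm
    rw [Finset.mem_coe, Set.Finite.mem_toFinset]
    exact left_ne_zero_of_mul hm
  have e2 : (∑ᶠ m, a m * s m) = ∑ m ∈ ha.toFinset, a m * s m := by
    refine finsum_eq_sum_of_support_subset _ ?_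
    intro m hm
    rw [Function.mem_support] at hm
    rw [Finset.mem_coe, Set.Finite.mem_toFinset]
    exact left_ne_zero_of_mul hm
  have e3 : ∀ l, (∑ᶠ m, a m * b (l - m)) * s l =
      ∑ m ∈ ha.toFinset, (a m * s m) * (b (l - m) * s (l - m)) := by
    intro l
    rw [e1, Finset.sum_mul]
    refine Finset.sum_congr rfl fun m _ => ?_
    have : s l = s m * s (l - m) := by rw [← hs, add_sub_cancel]
    rw [this]
    ring
  have hsub : ∀ m : Q, (Function.support fun l => b (l - m) * s (l - m)).Finite := by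
    intro m
    refine (hb.image fun x => x + m).subset ?_
    intro l hl
    exact ⟨l - m, left_ne_zero_of_mul hl, sub_add_cancel l m⟩
  rw [finsum_congr e3, finsum_sum_comm, e2, Finset.sum_mul]
  · refine Finset.sum_congr rfl fun m _ => ?_
    rw [← mul_finsum]
    congr 1
    exact finsum_comp_equiv (Equiv.subRight m) (f := fun x => b x * s x)
  · intro m _
    refine (hsub m).subset ?_
    intro l hl
    exact right_ne_zero_of_mul hl

theorem pars {r : ℕ} (a : (Fin r → ℤ) → ℂ) (ha : {l | a l ≠ 0}.Finite) (T : ℝ)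
    (h : ∀ s : (Fin r → ℤ) → ℂ, (∀ l m, s (l + m) = s l * s m) → (∀ l, ‖s l‖ = 1) →
      ‖∑ᶠ l, a l * s l‖ ≤ T) : ∑ᶠ l, ‖a l‖ ^ 2 ≤ T ^ 2 := by
  classical
  set A := ha.toFinset with hA
  have hmemA : ∀ l, l ∈ A ↔ a l ≠ 0 := fun l => by rw [hA, Set.Finite.mem_toFinset]; rfl
  let M : ℕ := 1 + 2 * ∑ l ∈ A, ∑ i, (l i).natAbs
  have : NeZero M := ⟨by omega⟩
  let G := Fin r → ZMod M
  let p : (Fin r → ℤ) → G := fun l i => (l i : ZMod M)
  have hpadd : ∀ l m, p (l + m) = p l + p m := by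
    intro l m
    funext i
    exact Int.cast_add _ _
  have hinj : ∀ l ∈ A, ∀ m ∈ A, p l = p m → l = m := by
    intro l hl m hm hlm
    funext i
    have h1 : ((l i : ℤ) : ZMod M) = (m i : ZMod M) := congrFun hlm i
    rw [ZMod.intCast_eq_intCast_iff_dvd_sub] at h1
    have bd : ∀ l ∈ A, 2 * (l i).natAbs < M := by
      intro l hl
      have b1 : (l i).natAbs ≤ ∑ i, (l i).natAbs :=
        Finset.single_le_sum (f := fun i => (l i).natAbs) (fun _ _ => Nat.zero_le _)
          (Finset.mem_univ i)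
      have b2 : ∑ i, (l i).natAbs ≤ ∑ l ∈ A, ∑ i, (l i).natAbs :=
        Finset.single_le_sum (f := fun l => ∑ i, (l i).natAbs) (fun _ _ => Nat.zero_le _) hl
      have : M = 1 + 2 * ∑ l ∈ A, ∑ i, (l i).natAbs := rfl
      omega
    have b1 := bd l hl
    have b2 := bd m hm
    obtain ⟨c, hc⟩ := h1
    rcases eq_or_ne c 0 with h0 | h0
    · rw [h0, mul_zero] at hc; omega
    · exfalso
      have h3 : (M : ℤ) ≤ |m i - l i| := by
        rw [hc, abs_mul, Nat.abs_cast]
        exact le_mul_of_one_le_right (by positivity) (Int.one_le_abs h0)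
      have h4 : |m i - l i| ≤ |m i| + |l i| := abs_sub _ _
      rw [Int.abs_eq_natAbs (m i), Int.abs_eq_natAbs (l i)] at h4
      omega
  have hs1 : ∀ ψ : AddChar G ℂ, ‖∑ l ∈ A, a l * ψ (p l)‖ ≤ T := by
    intro ψ
    have h1 := h (fun l => ψ (p l)) (fun l m => by
      rw [hpadd, AddChar.map_add_eq_mul]) (fun l => AddChar.norm_apply ψ _)
    rwa [finsum_eq_sum_of_support_subset (s := A)] at h1
    intro l hl
    rw [Finset.mem_coe, hmemA]
    exact left_ne_zero_of_mul hl
  have hT : 0 ≤ T := (norm_nonneg _).trans (hs1 1)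
  have key : ((∑ ψ : AddChar G ℂ, ‖∑ l ∈ A, a l * ψ (p l)‖ ^ 2 : ℝ) : ℂ) =
      (Fintype.card G : ℂ) * ((∑ l ∈ A, ‖a l‖ ^ 2 : ℝ) : ℂ) := by
    push_cast
    have e1 : ∀ ψ : AddChar G ℂ, ((‖∑ l ∈ A, a l * ψ (p l)‖ : ℝ) : ℂ) ^ 2 =
        ∑ l ∈ A, ∑ m ∈ A, (a l * (starRingEnd ℂ) (a m)) * ψ (p l - p m) := by
      intro ψ
      rw [← Complex.mul_conj', map_sum, Finset.sum_mul_sum]
      refine Finset.sum_congr rfl fun l _ => Finset.sum_congr rfl fun m _ => ?_
      rw [map_mul, sub_eq_add_neg, AddChar.map_add_eq_mul, AddChar.map_neg_eq_conj]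
      ring
    rw [Finset.sum_congr rfl fun ψ _ => e1 ψ, Finset.sum_comm, Finset.mul_sum]
    refine Finset.sum_congr rfl fun l hl => ?_
    rw [Finset.sum_comm, Finset.sum_eq_single_of_mem l hl]
    · rw [← Finset.mul_sum, sub_self, AddChar.sum_apply_eq_ite, if_pos rfl, Complex.mul_conj']
      ring
    · intro m hm hne
      rw [← Finset.mul_sum, AddChar.sum_apply_eq_ite, if_neg, mul_zero]
      intro h0
      exact hne (hinj l hl m hm (sub_eq_zero.mp h0)).symm
  have key' : (∑ ψ : AddChar G ℂ, ‖∑ l ∈ A, a l * ψ (p l)‖ ^ 2 : ℝ) =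
      (Fintype.card G : ℝ) * ∑ l ∈ A, ‖a l‖ ^ 2 := by
    exact_mod_cast key
  have hle : (∑ ψ : AddChar G ℂ, ‖∑ l ∈ A, a l * ψ (p l)‖ ^ 2 : ℝ) ≤
      (Fintype.card G : ℝ) * T ^ 2 := by
    have : ∀ ψ ∈ (Finset.univ : Finset (AddChar G ℂ)),
        ‖∑ l ∈ A, a l * ψ (p l)‖ ^ 2 ≤ T ^ 2 := by
      intro ψ _
      exact pow_le_pow_left₀ (norm_nonneg _) (hs1 ψ) 2
    refine (Finset.sum_le_card_nsmul _ _ _ this).trans ?_
    rw [nsmul_eq_mul, Finset.card_univ, AddChar.card_eq]
  have hcard : (0 : ℝ) < Fintype.card G := by exact_mod_cast Fintype.card_pos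
  rw [finsum_eq_sum_of_support_subset (s := A)]
  · rw [key'] at hle
    exact le_of_mul_le_mul_left hle hcard
  · intro l hl
    rw [Finset.mem_coe, hmemA]
    intro h0
    apply hl
    simp [h0]

/-! ## Powers of a kernel -/

section
variable {r : ℕ} {C : Matrix (Fin r) (Fin r) ℤ} {K : Type} [Field K]

/-- The power of a kernel. -/
noncomputable def kpow (k : XX C K → XX C K → ℂ) : ℕ → XX C K → XX C K → ℂ
  | 0 => kone
  | s + 1 => kmul k (kpow k s)

theorem kpow_ker (hC : SimplyLaced C) [Finite K] {k : XX C K → XX C K → ℂ} (hk : IsKer k)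
    (s : ℕ) : IsKer (kpow k s) := by
  obtain ⟨-, hmul, -, -, -, hone, -, -⟩ := Pool.Agent.TMP.hKer r C hC K
  induction s with
  | zero => exact hone
  | succ s ih => exact hmul _ _ hk ih

theorem kpow_rad (hC : SimplyLaced C) {k : XX C K → XX C K → ℂ}
    (hk2 : ∀ s, IsKer (kpow k s)) {R : ℕ} (hR : Rad k R) (s : ℕ) : Rad (kpow k s) (s * R) := by
  obtain ⟨-, hmul, hK⟩ := H22.hBdg r C hC K
  induction s with
  | zero =>
    intro g hg
    have h1 : g • oo C K = oo C K := by
      by_contra hne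
      apply hg
      show kone (oo C K) (g • oo C K) = 0
      unfold kone
      rw [if_neg (fun h => hne h.symm)]
    have h2 := (hK g).mp ((mem_maxK_iff g).mpr h1)
    simpa using h2
  | succ s ih =>
    intro g hg
    have h1 : ∃ y, k (oo C K) y * kpow k s y (g • oo C K) ≠ 0 := by
      by_contra hcon
      push Not at hcon
      apply hg
      show ∑ᶠ y, k (oo C K) y * kpow k s y (g • oo C K) = 0
      rw [finsum_congr hcon, finsum_zero]
    obtain ⟨y, hy⟩ := h1
    obtain ⟨h, rfl⟩ := exists_smul y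
    have h2 := hR h (left_ne_zero_of_mul hy)
    have h3 : kpow k s (oo C K) ((h⁻¹ * g) • oo C K) ≠ 0 := by
      have h4 := right_ne_zero_of_mul hy
      have h5 := (hk2 s).inv h (oo C K) ((h⁻¹ * g) • oo C K)
      rw [smul_smul, mul_inv_cancel_left] at h5
      rwa [← h5]
    have h4 := ih _ h3
    have e : (((s + 1) * R : ℕ) : ℤ) = (R : ℤ) + ((s * R : ℕ) : ℤ) := by push_cast; ring
    have e' : (((s + 1) * R : ℕ) : ℤ) = ((s * R : ℕ) : ℤ) + (R : ℤ) := by push_cast; ring
    constructor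
    · have h5 := hmul _ _ _ _ h2.1 h4.1
      rw [mul_inv_cancel_left] at h5
      rw [e]
      exact h5
    · have h5 := hmul _ _ _ _ h4.2 h2.2
      rw [mul_inv_rev, inv_inv, mul_assoc, mul_inv_cancel, mul_one] at h5
      rw [e']
      exact h5

theorem kpow_sat (hC : SimplyLaced C) [Finite K] {k : XX C K → XX C K → ℂ} (hk : IsKer k)
    (c : (Fin r → ℤ) → ℂ) (hc : ∀ l m, c (l + m) = c l * c m) (hc0 : c 0 = 1) (s : ℕ) :
    ∑ᶠ l, sat hC (kpow k s) l * c l = (∑ᶠ l, sat hC k l * c l) ^ s := by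
  obtain ⟨hfin, hmul, -, -, h1, h0, -⟩ := Pool.Agent.TMP.hSmu r C hC K
  induction s with
  | zero =>
    rw [pow_zero]
    show ∑ᶠ l, sat hC (kone : XX C K → XX C K → ℂ) l * c l = 1
    rw [finsum_eq_single _ 0 (fun l hl => by rw [h0 l hl, zero_mul]), h1, hc0, one_mul]
  | succ s ih =>
    have hks := kpow_ker hC hk s
    show ∑ᶠ l, sat hC (kmul k (kpow k s)) l * c l = _
    rw [finsum_congr fun l => by rw [hmul k (kpow k s) hk hks l],
      conv_char _ _ (hfin k hk) (hfin _ hks) c hc, ih, pow_succ']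

theorem kmul_apply {k k' : XX C K → XX C K → ℂ} (hk : IsKer k) (hk' : IsKer k')
    (f : XX C K → ℂ) (x : XX C K) :
    ∑ᶠ y, kmul k k' x y * f y = ∑ᶠ z, k x z * ∑ᶠ y, k' z y * f y := by
  classical
  have e1 : ∀ y, kmul k k' x y * f y =
      ∑ z ∈ (hk.fin x).toFinset, k x z * (k' z y * f y) := by
    intro y
    unfold kmul
    rw [finsum_eq_sum_of_support_subset (s := (hk.fin x).toFinset), Finset.sum_mul]
    · exact Finset.sum_congr rfl fun z _ => by ring
    · intro z hz
      rw [Finset.mem_coe, Set.Finite.mem_toFinset]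
      exact left_ne_zero_of_mul hz
  have hsub : ∀ z, (Function.support fun y => k' z y * f y).Finite := by
    intro z
    exact (hk'.fin z).subset fun y hy => left_ne_zero_of_mul hy
  rw [finsum_congr e1, finsum_sum_comm,
    finsum_eq_sum_of_support_subset (s := (hk.fin x).toFinset)]
  · refine Finset.sum_congr rfl fun z _ => ?_
    rw [← mul_finsum]
  · intro z hz
    rw [Finset.mem_coe, Set.Finite.mem_toFinset]
    exact left_ne_zero_of_mul hz
  · intro z _
    exact (hsub z).subset fun y hy => right_ne_zero_of_mul hy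

theorem kpow_eig {k : XX C K → XX C K → ℂ} (hk : IsKer k) (hk2 : ∀ s, IsKer (kpow k s))
    (f : XX C K → ℂ) (lam : ℂ) (h : ∀ x, ∑ᶠ y, k x y * f y = lam * f x) (s : ℕ) :
    ∀ x, ∑ᶠ y, kpow k s x y * f y = lam ^ s * f x := by
  induction s with
  | zero =>
    intro x
    rw [pow_zero, one_mul]
    show ∑ᶠ y, kone x y * f y = f x
    unfold kone
    rw [finsum_eq_single _ x (fun y hy => by rw [if_neg (fun h => hy h.symm), zero_mul]),
      if_pos rfl, one_mul]
  | succ s ih =>
    intro x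
    show ∑ᶠ y, kmul k (kpow k s) x y * f y = _
    rw [kmul_apply hk (hk2 s)]
    have e1 : ∀ z, k x z * ∑ᶠ y, kpow k s z y * f y = lam ^ s * (k x z * f z) := by
      intro z
      rw [ih z]
      ring
    rw [finsum_congr e1, ← mul_finsum, h x, pow_succ]
    ring

end

/-! ## The row -/

theorem par : ParStmt := by
  intro r C hC K _ _ k τ R hk hτ hn hR s
  have hk2 := kpow_ker hC hk
  refine ⟨kpow k s, hk2 s, kpow_rad hC hk2 hR s, ?_, fun f lam h => kpow_eig hk hk2 f lam h s⟩
  have hfin := (Pool.Agent.TMP.hSmu r C hC K).1 _ (hk2 s)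
  have h1 := pars (fun l => sat hC (kpow k s) l) hfin (τ ^ s) (by
    intro c hc hc1
    have hc0 : c 0 = 1 := by
      have h2 := hc 0 0
      rw [add_zero] at h2
      have h3 : c 0 ≠ 0 := by
        intro h0
        have := hc1 0
        rw [h0, norm_zero] at this
        exact zero_ne_one this
      exact (mul_left_cancel₀ h3 (by rw [mul_one]; exact h2)).symm
    show ‖∑ᶠ l, sat hC (kpow k s) l * c l‖ ≤ τ ^ s
    rw [kpow_sat hC hk c hc hc0 s, norm_pow]
    exact pow_le_pow_left₀ (norm_nonneg _)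
      ((Pool.Agent.TMP.hFla r C hC K k hk).2 τ hτ hn c hc hc1) s)
  rw [← pow_mul, mul_comm s 2] at h1
  exact h1

end Pool.Agent.WHT.H2
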